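import Pool.Agent.H840.KP.Stm
import Pool.Agent.H671.CNT

set_option autoImplicit false

/-!
# `S_INT2` and `S_CNT2`: the double integrals are absolutely convergent and continuous
-/

open Complex Filter Topology MeasureTheory Set Metric

open scoped ComplexConjugate

namespace Pool.Agent.H307.KP

open Pool.Agent.H671.CNT (eventually_sep ae_ne exists_sep)

/-- `u ^ (-3/2) (1 + u) ^ (-1)`. -/
noncomputable def kb (u : ℝ) : ℝ := (Real.sqrt u ^ 3 * (1 + u))⁻¹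

theorem kb_nonneg {u : ℝ} (hu : 0 ≤ u) : 0 ≤ kb u := by unfold kb; positivity

theorem measurable_kb : Measurable kb := by
  unfold kb
  fun_prop

theorem continuousAt_kb {u : ℝ} (hu : 0 < u) : ContinuousAt kb u := by
  unfold kb
  have h1 := Real.sqrt_pos.2 hu
  refine ContinuousAt.inv₀ (by fun_prop) (by positivity)

theorem integrable_kb : Integrable fun x : ℂ => kb ‖x‖ := by
  have hm : Measurable fun x : ℂ => kb ‖x‖ := measurable_kb.comp measurable_norm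
  have h1 : IntegrableOn (fun x : ℂ => kb ‖x‖) (ball 0 1) := by
    refine Integrable.mono' (Pool.Agent.H840.KO.integrableOn_ball_zero (α := 3 / 2) (R := 1)
      (by norm_num)) hm.aestronglyMeasurable.restrict ?_
    refine Filter.Eventually.of_forall fun x => ?_
    rw [Real.norm_of_nonneg (kb_nonneg (norm_nonneg _))]
    have h0 : 0 ≤ ‖x‖ := norm_nonneg x
    rcases h0.eq_or_lt with h | h
    · rw [← h]
      unfold kb
      simp
    · rw [Real.rpow_neg h0]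
      unfold kb
      have h2 : ‖x‖ ^ ((3 / 2 : ℝ)) = Real.sqrt ‖x‖ ^ 3 := by
        rw [Real.sqrt_eq_rpow, ← Real.rpow_natCast, ← Real.rpow_mul h0]
        norm_num
      rw [h2]
      have h3 := Real.sqrt_pos.2 h
      apply inv_anti₀ (by positivity)
      nlinarith [pow_pos h3 3]
  have h3 : IntegrableOn (fun x : ℂ => kb ‖x‖) (ball 0 1)ᶜ := by
    refine Integrable.mono' (Pool.Agent.H840.KO.integrableOn_compl_ball (α := 5 / 2) (by norm_num)
      (by norm_num : (0:ℝ) < 1)) hm.aestronglyMeasurable.restrict ?_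
    refine (ae_restrict_iff' measurableSet_ball.compl).2 (Filter.Eventually.of_forall fun x hx => ?_)
    have hx1 : 1 ≤ ‖x‖ := by simpa using hx
    have h0 : 0 ≤ ‖x‖ := norm_nonneg x
    rw [Real.norm_of_nonneg (kb_nonneg (norm_nonneg _)), Real.rpow_neg (norm_nonneg _)]
    have h2 : ‖x‖ ^ ((5 / 2 : ℝ)) = Real.sqrt ‖x‖ ^ 5 := by
      rw [Real.sqrt_eq_rpow, ← Real.rpow_natCast, ← Real.rpow_mul h0]
      norm_num
    rw [h2]
    unfold kb
    have h3 : 0 < Real.sqrt ‖x‖ := Real.sqrt_pos.2 (by linarith)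
    apply inv_anti₀ (by positivity)
    have h4 : Real.sqrt ‖x‖ ^ 2 = ‖x‖ := Real.sq_sqrt h0
    have h5 : Real.sqrt ‖x‖ ^ 5 = Real.sqrt ‖x‖ ^ 3 * ‖x‖ := by
      calc Real.sqrt ‖x‖ ^ 5 = Real.sqrt ‖x‖ ^ 3 * Real.sqrt ‖x‖ ^ 2 := by ring
        _ = Real.sqrt ‖x‖ ^ 3 * ‖x‖ := by rw [h4]
    rw [h5]
    apply mul_le_mul_of_nonneg_left _ (by positivity)
    linarith
  have := h1.union h3
  rwa [union_compl_self, integrableOn_univ] at this

/-- `1 / (u (1 + u) ^ 2)`. -/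
noncomputable def kc (u : ℝ) : ℝ := (u * (1 + u) ^ 2)⁻¹

theorem kc_nonneg {u : ℝ} (hu : 0 ≤ u) : 0 ≤ kc u := by unfold kc; positivity

theorem kc_le_kb {u : ℝ} (hu : 0 < u) : kc u ≤ kb u := by
  unfold kc kb
  have h1 := Real.sqrt_pos.2 hu
  have h2 : Real.sqrt u ^ 2 = u := Real.sq_sqrt hu.le
  apply inv_anti₀ (by positivity)
  have h3 : Real.sqrt u ≤ 1 + u := by
    nlinarith [sq_nonneg (Real.sqrt u - 1)]
  calc Real.sqrt u ^ 3 * (1 + u) = Real.sqrt u ^ 2 * (Real.sqrt u * (1 + u)) := by ring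
    _ = u * (Real.sqrt u * (1 + u)) := by rw [h2]
    _ ≤ u * ((1 + u) * (1 + u)) := by gcongr
    _ = u * (1 + u) ^ 2 := by ring

theorem kc_mul_sqrt_le_kb {u : ℝ} (hu : 0 < u) : kc u * Real.sqrt (1 + u) ≤ kb u := by
  unfold kc kb
  obtain ⟨v, hv⟩ : ∃ v, v = Real.sqrt u := ⟨_, rfl⟩
  obtain ⟨w, hw⟩ : ∃ w, w = Real.sqrt (1 + u) := ⟨_, rfl⟩
  have hv2 : u = v ^ 2 := by rw [hv, Real.sq_sqrt hu.le]
  have hw2 : 1 + u = w ^ 2 := by rw [hw, Real.sq_sqrt (by linarith)]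
  have hv0 : 0 < v := by rw [hv]; exact Real.sqrt_pos.2 hu
  have hw0 : 0 < w := by rw [hw]; exact Real.sqrt_pos.2 (by linarith)
  have hvw : v ≤ w := by
    rw [hv, hw]; exact Real.sqrt_le_sqrt (by linarith)
  rw [← hv, ← hw, hw2]
  have h1 : (u * (w ^ 2) ^ 2)⁻¹ * w = (v ^ 2 * w ^ 3)⁻¹ := by
    rw [hv2]; field_simp
  rw [h1]
  apply inv_anti₀ (by positivity)
  calc v ^ 3 * w ^ 2 = v * (v ^ 2 * w ^ 2) := by ring
    _ ≤ w * (v ^ 2 * w ^ 2) := by gcongr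
    _ = v ^ 2 * w ^ 3 := by ring

/-- The elementary bound of the logarithmic kernel. -/
theorem log_bound {A d U V : ℝ} (hA : 0 ≤ A) (hd : 0 < d) (hU : 0 < U) (hV : 0 < V)
    (h : Real.log d ≤ A + Real.log (1 + U) + Real.log (1 + V)) :
    |Real.log d| * (kc U * kc V) ≤ (A + 4) * ((kb U + kb d) * kb V) := by
  have hkU := kb_nonneg hU.le
  have hkV := kb_nonneg hV.le
  have hkd := kb_nonneg hd.le
  have hcU := kc_nonneg hU.le
  have hcV := kc_nonneg hV.le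
  have hsl : ∀ u : ℝ, 0 < u → Real.log (1 + u) ≤ 2 * Real.sqrt (1 + u) := by
    intro u hu
    have h1 : Real.log (1 + u) = 2 * Real.log (Real.sqrt (1 + u)) := by
      rw [Real.log_sqrt (by linarith)]; ring
    have h2 := Real.log_le_sub_one_of_pos (Real.sqrt_pos.2 (by linarith : 0 < 1 + u))
    linarith
  have hs1 : ∀ u : ℝ, 0 < u → 1 ≤ Real.sqrt (1 + u) := by
    intro u hu
    rw [Real.one_le_sqrt]; linarith
  rcases le_or_gt 1 d with hd1 | hd1
  · rw [abs_of_nonneg (Real.log_nonneg hd1)]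
    have h1 := hsl U hU
    have h2 := hsl V hV
    have h3 := hs1 U hU
    have h4 := hs1 V hV
    have h5 : Real.log d ≤ (A + 4) * (Real.sqrt (1 + U) * Real.sqrt (1 + V)) := by
      have h6 : 1 ≤ Real.sqrt (1 + U) * Real.sqrt (1 + V) := one_le_mul_of_one_le_of_one_le h3 h4
      have h7 : Real.sqrt (1 + U) ≤ Real.sqrt (1 + U) * Real.sqrt (1 + V) :=
        le_mul_of_one_le_right (by linarith) h4
      have h8 : Real.sqrt (1 + V) ≤ Real.sqrt (1 + U) * Real.sqrt (1 + V) :=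
        le_mul_of_one_le_left (by linarith) h3
      nlinarith
    calc Real.log d * (kc U * kc V)
        ≤ ((A + 4) * (Real.sqrt (1 + U) * Real.sqrt (1 + V))) * (kc U * kc V) := by
          gcongr
      _ = (A + 4) * ((kc U * Real.sqrt (1 + U)) * (kc V * Real.sqrt (1 + V))) := by ring
      _ ≤ (A + 4) * (kb U * kb V) := by
          gcongr
          · exact kc_mul_sqrt_le_kb hU
          · exact kc_mul_sqrt_le_kb hV
      _ ≤ (A + 4) * ((kb U + kb d) * kb V) := by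
          gcongr
          linarith
  · have hlog : |Real.log d| ≤ 2 * (Real.sqrt d)⁻¹ := by
      rw [abs_of_nonpos (Real.log_nonpos hd.le hd1.le)]
      have h1 : Real.log d = 2 * Real.log (Real.sqrt d) := by
        rw [Real.log_sqrt hd.le]; ring
      have h2 := Real.log_le_sub_one_of_pos (inv_pos.2 (Real.sqrt_pos.2 hd))
      rw [Real.log_inv] at h2
      linarith
    have hsd := Real.sqrt_pos.2 hd
    have hsU := Real.sqrt_pos.2 hU
    have h1 : (Real.sqrt d)⁻¹ * kc U ≤ 2 * (kb U + kb d) := by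
      rcases le_or_gt d U with hdU | hdU
      · have h2 : (Real.sqrt d)⁻¹ * kc U ≤ 2 * kb d := by
          unfold kc kb
          have h3 : (2 : ℝ) * (Real.sqrt d ^ 3 * (1 + d))⁻¹ =
              (Real.sqrt d ^ 3 * (1 + d) / 2)⁻¹ := by
            rw [inv_div]; ring
          rw [← mul_inv, h3]
          apply inv_anti₀ (by positivity)
          have h4 : Real.sqrt d ^ 2 = d := Real.sq_sqrt hd.le
          calc Real.sqrt d ^ 3 * (1 + d) / 2 = Real.sqrt d * (Real.sqrt d ^ 2 * (1 + d) / 2) := by ring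
            _ = Real.sqrt d * (d * (1 + d) / 2) := by rw [h4]
            _ ≤ Real.sqrt d * (U * 1) := by
                gcongr
                nlinarith
            _ ≤ Real.sqrt d * (U * (1 + U) ^ 2) := by
                gcongr
                nlinarith
        linarith
      · have h2 : (Real.sqrt d)⁻¹ * kc U ≤ kb U := by
          unfold kc kb
          rw [← mul_inv]
          apply inv_anti₀ (by positivity)
          have h4 : Real.sqrt U ^ 2 = U := Real.sq_sqrt hU.le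
          calc Real.sqrt U ^ 3 * (1 + U) = Real.sqrt U * (Real.sqrt U ^ 2 * (1 + U)) := by ring
            _ = Real.sqrt U * (U * (1 + U)) := by rw [h4]
            _ ≤ Real.sqrt d * (U * (1 + U) ^ 2) := by
                gcongr
                nlinarith
        linarith
    calc |Real.log d| * (kc U * kc V) ≤ (2 * (Real.sqrt d)⁻¹) * (kc U * kc V) := by gcongr
      _ = 2 * (((Real.sqrt d)⁻¹ * kc U) * kc V) := by ring
      _ ≤ 2 * ((2 * (kb U + kb d)) * kb V) := by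
          gcongr
          exact kc_le_kb hV
      _ = 4 * ((kb U + kb d) * kb V) := by ring
      _ ≤ (A + 4) * ((kb U + kb d) * kb V) := by
          have : 0 ≤ (kb U + kb d) * kb V := by positivity
          nlinarith

/-- The bound of the weight. -/
theorem weight_bound {δ R : ℝ} (hδ : 0 < δ) (hR : 0 ≤ R) :
    ∃ C : ℝ, 0 ≤ C ∧ ∀ e : Fin 5 → ℂ, (∀ k l, k ≠ l → δ ≤ ‖e k - e l‖) → (∀ k, ‖e k‖ ≤ R) →
      ∀ x, (∀ k, x ≠ e k) →
        (1 + ‖x‖) ^ 2 / ‖∏ k, (x - e k)‖ ≤ C * ∑ k, kc ‖x - e k‖ := by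
  obtain ⟨γ, hγ⟩ : ∃ γ : ℝ, γ = δ / (2 + δ) := ⟨_, rfl⟩
  have hγ0 : 0 < γ := by rw [hγ]; positivity
  refine ⟨(1 + R) ^ 2 / γ ^ 4, by positivity, fun e hsep hbd x hx => ?_⟩
  obtain ⟨k0, -, hk0⟩ := Finset.exists_min_image Finset.univ (fun k => ‖x - e k‖)
    ⟨0, Finset.mem_univ _⟩
  obtain ⟨U, hU⟩ : ∃ U : ℝ, U = ‖x - e k0‖ := ⟨_, rfl⟩
  have hU0 : 0 < U := by rw [hU]; exact norm_pos_iff.2 (sub_ne_zero.2 (hx k0))
  have h1 : ∀ l, l ≠ k0 → γ * (1 + U) ≤ ‖x - e l‖ := by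
    intro l hl
    have h2 : U ≤ ‖x - e l‖ := hU ▸ hk0 l (Finset.mem_univ _)
    have h3 := hsep k0 l (Ne.symm hl)
    have h4 : ‖e k0 - e l‖ ≤ ‖x - e l‖ + ‖x - e k0‖ := by
      calc ‖e k0 - e l‖ = ‖(x - e l) - (x - e k0)‖ := by congr 1; ring
        _ ≤ _ := norm_sub_le _ _
    rw [← hU] at h4
    have h5 : δ / 2 ≤ ‖x - e l‖ := by linarith
    rw [hγ, div_mul_eq_mul_div, div_le_iff₀ (by positivity)]
    nlinarith
  have h5 : U * (γ * (1 + U)) ^ 4 ≤ ‖∏ k, (x - e k)‖ := by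
    rw [norm_prod, ← Finset.mul_prod_erase Finset.univ _ (Finset.mem_univ k0), ← hU]
    refine mul_le_mul_of_nonneg_left ?_ hU0.le
    calc (γ * (1 + U)) ^ 4 = ∏ l ∈ Finset.univ.erase k0, (γ * (1 + U)) := by
          rw [Finset.prod_const, Finset.card_erase_of_mem (Finset.mem_univ _)]; simp
      _ ≤ _ := Finset.prod_le_prod (fun _ _ => by positivity)
          fun l hl => h1 l (Finset.ne_of_mem_erase hl)
  have hxU : 1 + ‖x‖ ≤ (1 + R) * (1 + U) := by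
    have h7 : ‖x‖ ≤ ‖x - e k0‖ + ‖e k0‖ := by
      calc ‖x‖ = ‖(x - e k0) + e k0‖ := by congr 1; ring
        _ ≤ _ := norm_add_le _ _
    have := hbd k0
    rw [← hU] at h7
    nlinarith
  have h7 : kc U ≤ ∑ k, kc ‖x - e k‖ := by
    rw [hU]
    exact Finset.single_le_sum (f := fun k => kc ‖x - e k‖)
      (fun k _ => kc_nonneg (norm_nonneg _)) (Finset.mem_univ k0)
  have hx0 := norm_nonneg x
  calc (1 + ‖x‖) ^ 2 / ‖∏ k, (x - e k)‖
      ≤ ((1 + R) * (1 + U)) ^ 2 / (U * (γ * (1 + U)) ^ 4) := by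
        gcongr
    _ = (1 + R) ^ 2 / γ ^ 4 * kc U := by
        unfold kc
        have hU1 : (1 + U) ≠ 0 := by positivity
        field_simp
    _ ≤ (1 + R) ^ 2 / γ ^ 4 * ∑ k, kc ‖x - e k‖ := by gcongr

/-- The integrand. -/
noncomputable def Fj (p q p' q' : ℕ) (e : Fin 5 → ℂ) (z : ℂ × ℂ) : ℂ :=
  ((Real.log ‖z.1 - z.2‖ / (‖∏ k, (z.1 - e k)‖ * ‖∏ k, (z.2 - e k)‖) : ℝ) : ℂ) *
      ((z.1 ^ p * conj z.1 ^ q) * (z.2 ^ p' * conj z.2 ^ q'))

theorem measurable_Fj (p q p' q' : ℕ) (e : Fin 5 → ℂ) : Measurable (Fj p q p' q' e) := by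
  unfold Fj
  fun_prop

/-- The dominating function. -/
noncomputable def Gj (C : ℝ) (e : Fin 5 → ℂ) (z : ℂ × ℂ) : ℝ :=
  C * ∑ k, ∑ l, (kb ‖z.1 - e k‖ + kb ‖z.1 - z.2‖) * kb ‖z.2 - e l‖

theorem integrable_pair1 (a b : ℂ) :
    Integrable fun z : ℂ × ℂ => kb ‖z.1 - a‖ * kb ‖z.2 - b‖ := by
  have h1 : Integrable fun x : ℂ => kb ‖x - a‖ := integrable_kb.comp_sub_right a
  have h2 : Integrable fun x : ℂ => kb ‖x - b‖ := integrable_kb.comp_sub_right b
  exact h1.mul_prod h2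

theorem mp_sub : MeasurePreserving (fun z : ℂ × ℂ => (z.1 - z.2, z.2))
    (volume : Measure (ℂ × ℂ)) volume :=
  measurePreserving_sub_prod (volume : Measure ℂ) (volume : Measure ℂ)

theorem integrable_pair2 (b : ℂ) :
    Integrable fun z : ℂ × ℂ => kb ‖z.1 - z.2‖ * kb ‖z.2 - b‖ := by
  have h1 : Integrable fun z : ℂ × ℂ => kb ‖z.1‖ * kb ‖z.2 - b‖ := by
    simpa using integrable_pair1 0 b
  exact mp_sub.integrable_comp_of_integrable h1

theorem integral_pair1 (a b : ℂ) :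
    ∫ z : ℂ × ℂ, kb ‖z.1 - a‖ * kb ‖z.2 - b‖ = (∫ x : ℂ, kb ‖x‖) * ∫ x : ℂ, kb ‖x‖ := by
  rw [Measure.volume_eq_prod, integral_prod_mul (fun x : ℂ => kb ‖x - a‖) fun x : ℂ => kb ‖x - b‖]
  rw [integral_sub_right_eq_self (fun x : ℂ => kb ‖x‖) a,
    integral_sub_right_eq_self (fun x : ℂ => kb ‖x‖) b]

theorem integral_pair2 (b : ℂ) :
    ∫ z : ℂ × ℂ, kb ‖z.1 - z.2‖ * kb ‖z.2 - b‖ = (∫ x : ℂ, kb ‖x‖) * ∫ x : ℂ, kb ‖x‖ := by
  have h1 : ∫ z : ℂ × ℂ, kb ‖z.1‖ * kb ‖z.2 - b‖ = (∫ x : ℂ, kb ‖x‖) * ∫ x : ℂ, kb ‖x‖ := by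
    simpa using integral_pair1 0 b
  rw [← h1]
  conv_rhs => rw [← mp_sub.map_eq]
  rw [integral_map mp_sub.measurable.aemeasurable]
  have hm : Measurable fun z : ℂ × ℂ => kb ‖z.1‖ * kb ‖z.2 - b‖ :=
    (measurable_kb.comp measurable_fst.norm).mul
      (measurable_kb.comp (measurable_snd.sub measurable_const).norm)
  exact hm.aestronglyMeasurable

theorem integrable_Gj (C : ℝ) (e : Fin 5 → ℂ) : Integrable (Gj C e) := by
  unfold Gj
  refine Integrable.const_mul ?_ C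
  refine integrable_finsetSum _ fun k _ => integrable_finsetSum _ fun l _ => ?_
  simp only [add_mul]
  exact (integrable_pair1 (e k) (e l)).add (integrable_pair2 (e l))

theorem integral_Gj (C : ℝ) (e : Fin 5 → ℂ) :
    ∫ z, Gj C e z = C * (25 * (2 * ((∫ x : ℂ, kb ‖x‖) * ∫ x : ℂ, kb ‖x‖))) := by
  unfold Gj
  have h0 : ∀ k l : Fin 5, Integrable fun z : ℂ × ℂ =>
      (kb ‖z.1 - e k‖ + kb ‖z.1 - z.2‖) * kb ‖z.2 - e l‖ := by
    intro k l
    simp only [add_mul]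
    exact (integrable_pair1 (e k) (e l)).add (integrable_pair2 (e l))
  have h1 : ∀ k l : Fin 5, ∫ z : ℂ × ℂ, (kb ‖z.1 - e k‖ + kb ‖z.1 - z.2‖) * kb ‖z.2 - e l‖ =
      2 * ((∫ x : ℂ, kb ‖x‖) * ∫ x : ℂ, kb ‖x‖) := by
    intro k l
    simp only [add_mul]
    rw [integral_add (integrable_pair1 (e k) (e l)) (integrable_pair2 (e l)), integral_pair1,
      integral_pair2]
    ring
  rw [integral_const_mul, integral_finsetSum _ fun k _ => integrable_finsetSum _ fun l _ => h0 k l]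
  simp only [integral_finsetSum _ fun l _ => h0 _ l, h1]
  simp only [Finset.sum_const, Finset.card_univ, Fintype.card_fin, nsmul_eq_mul]
  push_cast
  ring

theorem norm_mon_le {p q : ℕ} (hp : p ≤ 1) (hq : q ≤ 1) (x : ℂ) :
    ‖x ^ p * conj x ^ q‖ ≤ (1 + ‖x‖) ^ 2 := by
  have hx0 := norm_nonneg x
  have hpw : ∀ p : ℕ, p ≤ 1 → ‖x‖ ^ p ≤ 1 + ‖x‖ := by
    intro p hp
    interval_cases p
    · simp
    · simp
  rw [norm_mul, norm_pow, norm_pow, Complex.norm_conj, _root_.sq]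
  exact mul_le_mul (hpw p hp) (hpw q hq) (by positivity) (by positivity)

theorem bound2 {δ R : ℝ} (hδ : 0 < δ) (hR : 0 ≤ R) {p q p' q' : ℕ} (hp : p ≤ 1) (hq : q ≤ 1)
    (hp' : p' ≤ 1) (hq' : q' ≤ 1) :
    ∃ C : ℝ, 0 ≤ C ∧ ∀ e : Fin 5 → ℂ, (∀ k l, k ≠ l → δ ≤ ‖e k - e l‖) → (∀ k, ‖e k‖ ≤ R) →
      ∀ z : ℂ × ℂ, (∀ k, z.1 ≠ e k) → (∀ k, z.2 ≠ e k) → z.1 ≠ z.2 →
        ‖Fj p q p' q' e z‖ ≤ Gj C e z := by
  obtain ⟨C, hC, hw⟩ := weight_bound hδ hR
  obtain ⟨A, hA⟩ : ∃ A : ℝ, A = Real.log (1 + 2 * R) := ⟨_, rfl⟩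
  have hA0 : 0 ≤ A := by rw [hA]; exact Real.log_nonneg (by linarith)
  refine ⟨C ^ 2 * (A + 4), by positivity, ?_⟩
  rintro e hsep hbd ⟨s, t⟩ hs ht hst
  simp only at hs ht hst
  have hws := hw e hsep hbd s hs
  have hwt := hw e hsep hbd t ht
  have hd : 0 < ‖s - t‖ := norm_pos_iff.2 (sub_ne_zero.2 hst)
  have hs1 : 0 < ‖∏ k, (s - e k)‖ :=
    norm_pos_iff.2 (Finset.prod_ne_zero_iff.2 fun k _ => sub_ne_zero.2 (hs k))
  have ht1 : 0 < ‖∏ k, (t - e k)‖ :=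
    norm_pos_iff.2 (Finset.prod_ne_zero_iff.2 fun k _ => sub_ne_zero.2 (ht k))
  have hlog : ∀ k l, |Real.log ‖s - t‖| * (kc ‖s - e k‖ * kc ‖t - e l‖) ≤
      (A + 4) * ((kb ‖s - e k‖ + kb ‖s - t‖) * kb ‖t - e l‖) := by
    intro k l
    have hU : 0 < ‖s - e k‖ := norm_pos_iff.2 (sub_ne_zero.2 (hs k))
    have hV : 0 < ‖t - e l‖ := norm_pos_iff.2 (sub_ne_zero.2 (ht l))
    apply log_bound hA0 hd hU hV
    rw [hA, ← Real.log_mul (by positivity) (by positivity),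
      ← Real.log_mul (by positivity) (by positivity)]
    apply Real.log_le_log hd
    have h4 : ‖s - t‖ ≤ ‖s - e k‖ + ‖t - e l‖ + (‖e k‖ + ‖e l‖) := by
      calc ‖s - t‖ = ‖(s - e k) - (t - e l) + (e k - e l)‖ := by congr 1; ring
        _ ≤ ‖(s - e k) - (t - e l)‖ + ‖e k - e l‖ := norm_add_le _ _
        _ ≤ _ := by
          gcongr
          · exact norm_sub_le _ _
          · exact norm_sub_le _ _
    have h5 := hbd k
    have h6 := hbd l
    have h7 : 0 ≤ ‖s - e k‖ * ‖t - e l‖ := by positivity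
    have h8 : 0 ≤ R * ‖s - e k‖ := by positivity
    have h9 : 0 ≤ R * ‖t - e l‖ := by positivity
    have h10 : 0 ≤ R * (‖s - e k‖ * ‖t - e l‖) := by positivity
    nlinarith
  unfold Fj Gj
  simp only
  rw [norm_mul, Complex.norm_real, Real.norm_eq_abs, abs_div, abs_of_pos (mul_pos hs1 ht1),
    norm_mul]
  calc |Real.log ‖s - t‖| / (‖∏ k, (s - e k)‖ * ‖∏ k, (t - e k)‖) *
        (‖s ^ p * conj s ^ q‖ * ‖t ^ p' * conj t ^ q'‖)
      ≤ |Real.log ‖s - t‖| / (‖∏ k, (s - e k)‖ * ‖∏ k, (t - e k)‖) *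
        ((1 + ‖s‖) ^ 2 * (1 + ‖t‖) ^ 2) := by
        gcongr
        · exact norm_mon_le hp hq s
        · exact norm_mon_le hp' hq' t
    _ = |Real.log ‖s - t‖| * (((1 + ‖s‖) ^ 2 / ‖∏ k, (s - e k)‖) *
          ((1 + ‖t‖) ^ 2 / ‖∏ k, (t - e k)‖)) := by
        field_simp
    _ ≤ |Real.log ‖s - t‖| * ((C * ∑ k, kc ‖s - e k‖) * (C * ∑ k, kc ‖t - e k‖)) := by
        have h0 : 0 ≤ C * ∑ k, kc ‖s - e k‖ :=
          mul_nonneg hC (Finset.sum_nonneg fun k _ => kc_nonneg (norm_nonneg _))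
        gcongr
    _ = C ^ 2 * ∑ k, ∑ l, |Real.log ‖s - t‖| * (kc ‖s - e k‖ * kc ‖t - e l‖) := by
        have h1 : ∑ k, ∑ l, |Real.log ‖s - t‖| * (kc ‖s - e k‖ * kc ‖t - e l‖) =
            |Real.log ‖s - t‖| * ((∑ k, kc ‖s - e k‖) * ∑ k, kc ‖t - e k‖) := by
          rw [Finset.sum_mul_sum, Finset.mul_sum]
          simp only [Finset.mul_sum]
        rw [h1]
        ring
    _ ≤ C ^ 2 * ∑ k, ∑ l, (A + 4) * ((kb ‖s - e k‖ + kb ‖s - t‖) * kb ‖t - e l‖) := by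
        refine mul_le_mul_of_nonneg_left ?_ (by positivity)
        exact Finset.sum_le_sum fun k _ => Finset.sum_le_sum fun l _ => hlog k l
    _ = C ^ 2 * (A + 4) * ∑ k, ∑ l, (kb ‖s - e k‖ + kb ‖s - t‖) * kb ‖t - e l‖ := by
        simp only [← Finset.mul_sum]
        ring

theorem ae_ne2 (a : Fin 5 → ℂ) :
    ∀ᵐ z : ℂ × ℂ, (∀ k, z.1 ≠ a k) ∧ (∀ k, z.2 ≠ a k) ∧ z.1 ≠ z.2 := by
  have h1 : ∀ᵐ z : ℂ × ℂ, ∀ k, z.1 ≠ a k :=
    (Measure.quasiMeasurePreserving_fst (μ := (volume : Measure ℂ))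
      (ν := (volume : Measure ℂ))).ae (ae_ne a)
  have h2 : ∀ᵐ z : ℂ × ℂ, ∀ k, z.2 ≠ a k :=
    (Measure.quasiMeasurePreserving_snd (μ := (volume : Measure ℂ))
      (ν := (volume : Measure ℂ))).ae (ae_ne a)
  have h3 : ∀ᵐ z : ℂ × ℂ, z.1 ≠ 0 :=
    (Measure.quasiMeasurePreserving_fst (μ := (volume : Measure ℂ))
      (ν := (volume : Measure ℂ))).ae (Measure.ae_ne volume (0 : ℂ))
  have h4 : ∀ᵐ z : ℂ × ℂ, z.1 - z.2 ≠ 0 := mp_sub.quasiMeasurePreserving.ae h3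
  filter_upwards [h1, h2, h4] with z hz1 hz2 hz4
  exact ⟨hz1, hz2, sub_ne_zero.1 hz4⟩

theorem t_INT2 : Pool.Agent.H840.KP.S_INT2 := by
  intro a p q p' q' ha hp hq hp' hq'
  obtain ⟨δ, R, hδ, hR, hev⟩ := eventually_sep ha
  obtain ⟨C, hC, hb⟩ := bound2 hδ hR hp hq hp' hq'
  have haS := hev.self_of_nhds
  refine (integrable_Gj C a).mono' (measurable_Fj p q p' q' a).aestronglyMeasurable ?_
  filter_upwards [ae_ne2 a] with z hz
  exact hb a haS.1 haS.2 z hz.1 hz.2.1 hz.2.2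

theorem t_CNT2 : Pool.Agent.H840.KP.S_CNT2 := by
  intro a p q p' q' ha hp hq hp' hq'
  obtain ⟨δ, R, hδ, hR, hev⟩ := eventually_sep ha
  obtain ⟨C, hC, hb⟩ := bound2 hδ hR hp hq hp' hq'
  have haS := hev.self_of_nhds
  change Tendsto (fun e : Fin 5 → ℂ => ∫ z : ℂ × ℂ, Fj p q p' q' e z) (𝓝 a)
      (𝓝 (∫ z : ℂ × ℂ, Fj p q p' q' a z))
  refine Pool.Agent.H840.AS.gdct (G := fun e => Gj C e) (g := Gj C a)
      (Filter.Eventually.of_forall fun e => (measurable_Fj p q p' q' e).aestronglyMeasurable)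
      (Filter.Eventually.of_forall fun e => integrable_Gj C e) (integrable_Gj C a) ?_ ?_ ?_ ?_ ?_
  · filter_upwards [hev] with e he
    filter_upwards [ae_ne2 e] with z hz
    exact hb e he.1 he.2 z hz.1 hz.2.1 hz.2.2
  · filter_upwards [ae_ne2 a] with z hz
    exact hb a haS.1 haS.2 z hz.1 hz.2.1 hz.2.2
  · filter_upwards [ae_ne2 a] with z hz
    obtain ⟨hz1, hz2, hz3⟩ := hz
    have h1 : ContinuousAt (fun e : Fin 5 → ℂ => Fj p q p' q' e z) a := by
      unfold Fj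
      have hk : ∀ (x : ℂ), ContinuousAt (fun e : Fin 5 → ℂ => ‖∏ k, (x - e k)‖) a := fun x =>
        (Continuous.norm (continuous_finsetProd _ fun k _ =>
          continuous_const.sub (continuous_apply k))).continuousAt
      have h4 : ‖∏ k, (z.1 - a k)‖ * ‖∏ k, (z.2 - a k)‖ ≠ 0 := by
        refine mul_ne_zero (norm_ne_zero_iff.2 (Finset.prod_ne_zero_iff.2 fun k _ => ?_))
          (norm_ne_zero_iff.2 (Finset.prod_ne_zero_iff.2 fun k _ => ?_))
        · exact sub_ne_zero.2 (hz1 k)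
        · exact sub_ne_zero.2 (hz2 k)
      have h7 := (continuousAt_const (y := Real.log ‖z.1 - z.2‖)).div ((hk z.1).mul (hk z.2)) h4
      exact (Complex.continuous_ofReal.continuousAt.comp h7).mul continuousAt_const
    exact h1
  · filter_upwards [ae_ne2 a] with z hz
    obtain ⟨hz1, hz2, hz3⟩ := hz
    have h1 : ContinuousAt (fun e : Fin 5 → ℂ => Gj C e z) a := by
      unfold Gj
      refine continuousAt_const.mul ?_
      refine tendsto_finsetSum _ fun k _ => tendsto_finsetSum _ fun l _ => ?_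
      have h2 : ContinuousAt (fun e : Fin 5 → ℂ => ‖z.1 - e k‖) a :=
        (continuous_const.sub (continuous_apply k)).norm.continuousAt
      have h2' : ContinuousAt (fun e : Fin 5 → ℂ => ‖z.2 - e l‖) a :=
        (continuous_const.sub (continuous_apply l)).norm.continuousAt
      have h3 := continuousAt_kb (norm_pos_iff.2 (sub_ne_zero.2 (hz1 k)))
      have h3' := continuousAt_kb (norm_pos_iff.2 (sub_ne_zero.2 (hz2 l)))
      have h4 := ContinuousAt.comp (f := fun e : Fin 5 → ℂ => ‖z.1 - e k‖) h3 h2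
      have h4' := ContinuousAt.comp (f := fun e : Fin 5 → ℂ => ‖z.2 - e l‖) h3' h2'
      exact (h4.add continuousAt_const).mul h4'
    exact h1
  · simp only [integral_Gj]
    exact tendsto_const_nhds

end Pool.Agent.H307.KP
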